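import Pool.Agent.H216R3.StD8

/-!
New Steiner systems `S(n,8,2)`, for `n = 624, 1065, 1296, 1513, 1520, 1737, 3305, 3417, 3753`.
All but the first come from difference families over `AGL(1,8) × 𝔽_q`.
-/

namespace Pool.Agent.Results.MP_409a13_co.BlockSize8

open Pool.Agent.H816R2.DF Pool.Agent.H216R3.StGrp

/-- There is a Steiner system `S(n,8,2)` for each `n` in the list. -/
theorem result : ∀ n ∈ ([624, 1065, 1296, 1513, 1520, 1737, 3305, 3417, 3753] : List ℕ),
    ∃ 𝓑 : Finset (Finset (Fin n)), IsSteiner n 8 2 𝓑 := by
  intro n hn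
  simp only [List.mem_cons, List.not_mem_nil, or_false] at hn
  rcases hn with rfl | rfl | rfl | rfl | rfl | rfl | rfl | rfl | rfl
  · exact toSteiner s624
  · exact toSteiner s1065
  · exact toSteiner s1296
  · exact toSteiner s1513
  · exact toSteiner s1520
  · exact toSteiner s1737
  · exact toSteiner s3305
  · exact toSteiner s3417
  · exact toSteiner s3753

end Pool.Agent.Results.MP_409a13_co.BlockSize8
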