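import Pool.Agent.H216R3.StD9
import Pool.Agent.H216R3.StD9b
import Pool.Agent.H216R3.StD9c
import Pool.Agent.H216R3.StD9d
import Pool.Agent.H216R3.StD9e
import Pool.Agent.H216R3.StD9f
import Pool.Agent.H216R3.StD9g

/-!
New Steiner systems `S(n,9,2)`, for 24 values of `n` between `793` and `16497`, from
difference families over `ℤ_8 × 𝔽_q`, `ℤ_2^3 × 𝔽_q`, `(A_4 × ℤ_6) × 𝔽_q`, `ℤ_72 × 𝔽_q`,
`(ℤ_2^3 × ℤ_3^2) × 𝔽_41` and `ℤ_13 × ℤ_61`, with holes filled by the projective plane of order `8` or the affine plane
of order `9`.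
-/

namespace Pool.Agent.Results.MP_409a13_co.BlockSize9

open Pool.Agent.H816R2.DF Pool.Agent.H216R3.StGrp

/-- There is a Steiner system `S(n,9,2)` for each `n` in the list. -/
theorem result : ∀ n ∈ ([793, 1017, 1305, 1593, 2233, 2241, 2457, 2665, 2745, 2889, 2961, 3097, 3105, 3817,
      4393, 4401, 4825, 4833, 4905, 7353, 7425, 10017, 12537, 16497] : List ℕ),
    ∃ 𝓑 : Finset (Finset (Fin n)), IsSteiner n 9 2 𝓑 := by
  intro n hn
  simp only [List.mem_cons, List.not_mem_nil, or_false] at hn
  rcases hn with rfl | rfl | rfl | rfl | rfl | rfl | rfl | rfl | rfl | rfl | rfl |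
    rfl | rfl | rfl | rfl | rfl | rfl | rfl | rfl | rfl | rfl | rfl | rfl | rfl
  · exact toSteiner s793
  · exact toSteiner s1017
  · exact toSteiner s1305
  · exact toSteiner s1593
  · exact toSteiner s2233
  · exact toSteiner s2241
  · exact toSteiner s2457
  · exact toSteiner s2665
  · exact toSteiner s2745
  · exact toSteiner s2889
  · exact toSteiner s2961
  · exact toSteiner s3097
  · exact toSteiner s3105
  · exact toSteiner s3817
  · exact toSteiner s4393
  · exact toSteiner s4401
  · exact toSteiner s4825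
  · exact toSteiner s4833
  · exact toSteiner s4905
  · exact toSteiner s7353
  · exact toSteiner s7425
  · exact toSteiner s10017
  · exact toSteiner s12537
  · exact toSteiner s16497

end Pool.Agent.Results.MP_409a13_co.BlockSize9
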