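import Pool.Agent.H367R3.S35.General
import Pool.Agent.H367R3.S35.D302

/-!
Steiner systems `S(3,5,v)`, that is `S(v,5,3)` in the order of parameters of the problem: a product
theorem, the new orders `302` (cyclic, with the multipliers of `ZMod 302`) and `3125 = 5^5` (lines
of `AG(5,5)` and 12 orbits of `AΓL(1,5^5)`), and the multiplicative monoid generated by the known
values of `v - 1`.
-/

namespace Pool.Agent.Results.MP_409a13_co.Strength3Products

open Pool.Agent.H816R2.DF (IsSteiner)
open Pool.Agent.H367R3.S35P

/-- (1) If there are Steiner systems with blocks of size `5` and strength `3` on `u + 1` and on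
`w + 1` points, then there is one on `u w + 1` points.
(2) There is one on `u + 1` points for every `u` in the multiplicative monoid generated by
`4, 25, 124, 136, 145, 196, 205, 301, 3124`. -/
theorem result :
    (∀ u w : ℕ, (∃ 𝓑 : Finset (Finset (Fin (u + 1))), IsSteiner (u + 1) 5 3 𝓑) →
      (∃ 𝓑 : Finset (Finset (Fin (w + 1))), IsSteiner (w + 1) 5 3 𝓑) →
      ∃ 𝓑 : Finset (Finset (Fin (u * w + 1))), IsSteiner (u * w + 1) 5 3 𝓑) ∧
    ∀ u ∈ Submonoid.closure ({4, 25, 124, 136, 145, 196, 205, 301, 3124} : Set ℕ),
      ∃ 𝓑 : Finset (Finset (Fin (u + 1))), IsSteiner (u + 1) 5 3 𝓑 := by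
  refine ⟨fun u w hu hw => product hu hw, fun u hu => ?_⟩
  refine toSteiner (good_closure ?_ u hu).1
  intro x hx
  simp only [Set.mem_insert_iff, Set.mem_singleton_iff] at hx
  rcases hx with rfl | rfl | rfl | rfl | rfl | rfl | rfl | rfl | rfl
  · exact good4
  · exact good25
  · exact good124
  · exact good136
  · exact good145
  · exact good196
  · exact good205
  · exact ⟨Pool.Agent.H367R3.S35L.ex302, hasOA_coprime 301 (by norm_num)⟩
  · exact good3124

end Pool.Agent.Results.MP_409a13_co.Strength3Products
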